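import Pool.Agent.Lib.MP_a763a9_pr.H59.Final

/-!
# The limit of the free energy depends only on the local limit

The Cauchy argument of `H59/Final.lean` is run for two locally tree-like sequences with the same
local limit and for arbitrary degree dependent fields `b (d_v)` of at most linear growth.
-/

set_option autoImplicit false
set_option linter.unusedVariables false
set_option linter.unusedSectionVars false

namespace Pool.Agent.Lib.MP_a763a9_pr.LD

open Finset MeasureTheory Filter Topology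
open Pool.Agent.Lib.MP_a763a9_pr.H59

open Classical in
/-- The partition function of the Ising model on a finite graph `G` with inverse temperature `β`
and the field `b (d_v)` at every vertex `v`: the sum over all `σ ∈ {-1,1}^V` of
`exp (β ∑_{uv ∈ E} σ_u σ_v + ∑_v b(d_v) σ_v)`. The double sum over `u, v` counts every edge twice,
hence the factor `1 / 2`. -/
noncomputable def ZF {V : Type} [Fintype V] (G : SimpleGraph V) (β : ℝ) (b : ℕ → ℝ) : ℝ :=
  ∑ σ : V → Bool, Real.exp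
    (β * ((1 / 2) * ∑ u, ∑ v, if G.Adj u v then spin (σ u) * spin (σ v) else 0) +
      ∑ v, b (deg G v) * spin (σ v))

/-- The random graphs `G n` converge locally in probability to the random rooted graph `X`. -/
def HasLocalLimit {Ω : ℕ → Type} [∀ n, MeasurableSpace (Ω n)] (P : ∀ n, Measure (Ω n))
    (G : ∀ n, Ω n → SimpleGraph (Fin n)) (X : RandomRooted) : Prop :=
  ∀ (r : ℕ), 1 ≤ r → ∀ (m : ℕ) (H : SimpleGraph (Fin m)) (o : Fin m),
    TendstoInProb P (fun n ω => frac (fun v => BallIso (G n ω) v r H o))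
      (X.μ.real {ω | BallIso (X.T ω) (X.root ω) r H o})

lemma Z_eq_ZF {V : Type} [Fintype V] (G : SimpleGraph V) (β k h : ℝ) :
    Z G β k h = ZF G β (fun d => k * d + h) := rfl

section

variable {V : Type} [Fintype V] [LinearOrder V]

lemma ZF_eq (G : SimpleGraph V) (β : ℝ) (b : ℕ → ℝ) :
    ZF G β b = Zf (fw (fun v => b (deg G v)) 0) (edG G) β := by
  unfold ZF Zf
  refine sum_equiv (Equiv.refl (V → Bool)) (fun σ => ?_) (fun σ _ => ?_)
  · simp only [mem_univ]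
  rw [wgt_fw_eq, edge_sum_eq]
  simp only [spin_eq_sg, Equiv.refl_apply]

/-- Truncation changes the free energy little. -/
theorem abs_log_ZF_sub_le (G : SimpleGraph V) (Δ ℓ : ℕ) {β : ℝ} (hβ : 0 ≤ β) (b : ℕ → ℝ) {C : ℝ}
    (hC : 0 ≤ C) (hb : ∀ d : ℕ, |b d| ≤ C * (d + 1)) :
    |Real.log (ZF G β b) - lZ b (lb G Δ) (edG (tr G Δ ℓ)) β| ≤
      β * (hiDeg G Δ + Δ * nBad G ℓ) + 4 * C * hiDeg G Δ := by
  have hE : ∀ σ : V → Bool, |∑ e ∈ edG G, sg (σ e.1) * sg (σ e.2) -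
      ∑ e ∈ edG (tr G Δ ℓ), sg (σ e.1) * sg (σ e.2)| ≤ hiDeg G Δ + Δ * nBad G ℓ := by
    intro σ
    have e1 : ∑ e ∈ edG G, sg (σ e.1) * sg (σ e.2) -
        ∑ e ∈ edG (tr G Δ ℓ), sg (σ e.1) * sg (σ e.2) =
        ∑ e ∈ edG G \ edG (tr G Δ ℓ), sg (σ e.1) * sg (σ e.2) := by
      rw [← sum_sdiff (edG_tr_subset G Δ ℓ)]; ring
    rw [e1]
    refine (abs_sum_le_sum_abs _ _).trans (le_trans (le_of_eq ?_) (card_removed G Δ ℓ))
    rw [sum_congr rfl (g := fun _ => (1:ℝ)) fun e _ => by rw [abs_mul, abs_sg, abs_sg, one_mul]]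
    simp
  have hV : ∀ σ : V → Bool, |∑ v, b (deg G v) * sg (σ v) -
      ∑ v, b (lb G Δ v) * sg (σ v)| ≤ 4 * C * hiDeg G Δ := by
    intro σ
    rw [← sum_sub_distrib]
    refine (abs_sum_le_sum_abs _ _).trans ?_
    unfold hiDeg
    rw [mul_sum]
    refine sum_le_sum fun v _ => ?_
    rw [← sub_mul, abs_mul, abs_sg, mul_one]
    unfold lb
    split_ifs with hc
    · have h1 : min (deg G v) (Δ + 1) = Δ + 1 := by omega
      rw [h1]
      have h2 := hb (deg G v)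
      have h3 := hb (Δ + 1)
      have h4 : ((Δ + 1 : ℕ) : ℝ) ≤ deg G v := by exact_mod_cast hc
      have h5 : (1 : ℝ) ≤ deg G v := by
        have : 1 ≤ deg G v := by omega
        exact_mod_cast this
      have h6 : C * (((Δ + 1 : ℕ) : ℝ) + 1) ≤ C * ((deg G v : ℝ) + 1) :=
        mul_le_mul_of_nonneg_left (by linarith) hC
      have h7 : C * ((deg G v : ℝ) + 1) ≤ C * (2 * (deg G v : ℝ)) :=
        mul_le_mul_of_nonneg_left (by linarith) hC
      calc |b (deg G v) - b (Δ + 1)| ≤ |b (deg G v)| + |b (Δ + 1)| := abs_sub _ _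
        _ ≤ 4 * C * (deg G v : ℝ) := by linarith
    · have : min (deg G v) (Δ + 1) = deg G v := by omega
      rw [this]; simp
  rw [ZF_eq]
  unfold lZ
  rw [abs_sub_le_iff]
  constructor
  · have := log_Zf_le_of (β := β) (θ := fun v => b (deg G v))
      (θ' := fun v => b (lb G Δ v)) (E := edG G) (E' := edG (tr G Δ ℓ))
      (K := β * (hiDeg G Δ + Δ * nBad G ℓ) + 4 * C * hiDeg G Δ) (fun σ => by
        have a := mul_le_mul_of_nonneg_left ((le_abs_self _).trans (hE σ)) hβ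
        have b := (le_abs_self _).trans (hV σ)
        linarith)
    linarith
  · have := log_Zf_le_of (β := β) (θ' := fun v => b (deg G v))
      (θ := fun v => b (lb G Δ v)) (E' := edG G) (E := edG (tr G Δ ℓ))
      (K := β * (hiDeg G Δ + Δ * nBad G ℓ) + 4 * C * hiDeg G Δ) (fun σ => by
        have a := mul_le_mul_of_nonneg_left ((neg_le_abs _).trans (hE σ)) hβ
        have b := (neg_le_abs _).trans (hV σ)
        linarith)
    linarith

lemma hiDeg_anti (G : SimpleGraph V) {Δ Δ' : ℕ} (h : Δ ≤ Δ') : hiDeg G Δ' ≤ hiDeg G Δ := by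
  unfold hiDeg
  refine sum_le_sum fun v _ => ?_
  by_cases h1 : Δ' < deg G v
  · rw [if_pos h1, if_pos (lt_of_le_of_lt h h1)]
  · rw [if_neg h1]
    split_ifs <;> positivity

end

section

variable {Ω : ℕ → Type} [∀ n, MeasurableSpace (Ω n)] {P : ∀ n, Measure (Ω n)}
  [∀ n, IsProbabilityMeasure (P n)] {G : ∀ n, Ω n → SimpleGraph (Fin n)}

lemma sparse_mono (h : LocallyTreeLike P G) {δ : ℝ} {Δ Δ' : ℕ} (hle : Δ ≤ Δ')
    (hΔ : ∀ᶠ n in atTop, ∫ ω, hiDeg (G n ω) Δ / n ∂P n ≤ δ) :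
    ∀ᶠ n in atTop, ∫ ω, hiDeg (G n ω) Δ' / n ∂P n ≤ δ := by
  filter_upwards [hΔ] with n hn
  refine le_trans (integral_mono ?_ ?_ fun ω => ?_) hn
  · exact integrable_fun (P n) (h.measurable n) (fun H => hiDeg H Δ' / (n : ℝ))
  · exact integrable_fun (P n) (h.measurable n) (fun H => hiDeg H Δ / (n : ℝ))
  · exact div_le_div_of_nonneg_right (hiDeg_anti _ hle) (Nat.cast_nonneg n)

/-- With high probability the free energy is close to the one of the truncated graph and the colour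
frequencies of the truncated graph are close to numbers which depend only on the local limit. -/
theorem approx (h : LocallyTreeLike P G) (X : RandomRooted) (hloc : HasLocalLimit P G X)
    {β : ℝ} (hβ : 0 ≤ β) (b : ℕ → ℝ) {C : ℝ} (hC : 0 ≤ C) (hb : ∀ d : ℕ, |b d| ≤ C * (d + 1))
    {ε : ℝ} (hε : 0 < ε) (Δ R ℓ : ℕ)
    (hΔ : ∀ᶠ n in atTop, ∫ ω, hiDeg (G n ω) Δ / n ∂P n ≤
      ε / (8 * (β + 4 * C + 1)) * (ε / 4))
    {δ1 : ℝ} (hδ1p : 0 < δ1) (hδ1 : δ1 ≤ ε / (32 * (β * Δ + 1)))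
    (t : Finset Ty) (hta : ∀ q ∈ t, q.out.2.1.IsAcyclic)
    (htm : 1 - δ1 ≤ ∑ q ∈ t, X.μ.real {ω | HasTy (X.T ω) (X.root ω) (R + ℓ + 1) q}) :
    ∃ (N : ℕ) (A : ∀ n, Set (Ω n)), (∀ n ≥ N, P n (A n)ᶜ ≤ ENNReal.ofReal ε) ∧ 1 ≤ N ∧
      ∀ n ≥ N, ∀ ω ∈ A n,
        |Real.log (ZF (G n ω) β b) / n -
          lZ b (lb (G n ω) Δ) (edG (tr (G n ω) Δ ℓ)) β / n| ≤ ε / 4 ∧
        ∀ s ≤ R, ∀ γ, |freq (nbG (tr (G n ω) Δ ℓ)) (lb (G n ω) Δ) s γ -
          ∑ q ∈ t, (if col (nbG (tr q.out.2.1 Δ ℓ)) (lb q.out.2.1 Δ) s q.out.2.2 = γ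
            then (1:ℝ) else 0) * X.μ.real {ω | HasTy (X.T ω) (X.root ω) (R + ℓ + 1) q}|
            ≤ 3 * δ1 := by
  classical
  set ε1 := ε / (8 * (β + 4 * C + 1)) with hε1
  have hε1p : 0 < ε1 := by positivity
  set R' := R + ℓ + 1 with hR'
  have hβΔ : 0 ≤ β * Δ := mul_nonneg hβ (Nat.cast_nonneg _)
  set π : Ty → ℝ := fun q => X.μ.real {ω | HasTy (X.T ω) (X.root ω) R' q} with hπ
  set A1 : ∀ n, Set (Ω n) := fun n => {ω | ε1 ≤ hiDeg (G n ω) Δ / n} with hA1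
  set A2 : ∀ n, Ty → Set (Ω n) := fun n q =>
    {ω | δ1 / (#t + 1) < |frac (fun v => HasTy (G n ω) v R' q) - π q|} with hA2
  have hA1le : ∀ᶠ n in atTop, P n (A1 n) ≤ ENNReal.ofReal (ε / 4) := by
    filter_upwards [hΔ] with n hn
    have hi := integrable_fun (P n) (h.measurable n) (fun H => hiDeg H Δ / (n : ℝ))
    have hm := mul_meas_ge_le_integral_of_nonneg (μ := P n)
      (Eventually.of_forall fun ω => div_nonneg (hiDeg_nonneg (G n ω) Δ) (Nat.cast_nonneg n))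
      hi ε1
    have h1 : (P n).real (A1 n) ≤ ε / 4 := by
      have : ε1 * (P n).real (A1 n) ≤ ε1 * (ε / 4) := hm.trans hn
      exact le_of_mul_le_mul_left this hε1p
    rw [← ENNReal.ofReal_toReal (measure_ne_top (P n) (A1 n))]
    exact ENNReal.ofReal_le_ofReal h1
  have hA2le : ∀ᶠ n in atTop, ∑ q ∈ t, P n (A2 n q) ≤ ENNReal.ofReal (ε / 4) := by
    have h1 : Tendsto (fun n => ∑ q ∈ t, P n (A2 n q)) atTop (𝓝 (∑ q ∈ t, 0)) := by
      refine tendsto_finsetSum _ fun q _ => ?_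
      exact hloc R' (by omega) _ _ _ _ (by positivity)
    rw [sum_const_zero] at h1
    exact h1.eventually_le_const (by positivity)
  obtain ⟨N, hN⟩ := ((hA1le.and hA2le).and (eventually_ge_atTop 1)).exists_forall_of_atTop
  refine ⟨max N 1, fun n => {ω | hiDeg (G n ω) Δ / n < ε1 ∧
    ∀ q ∈ t, |frac (fun v => HasTy (G n ω) v R' q) - π q| ≤ δ1 / (#t + 1)}, ?_,
    le_max_right _ _, ?_⟩
  · intro n hn
    obtain ⟨⟨h1, h2⟩, _⟩ := hN n ((le_max_left _ _).trans hn)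
    have hsub : {ω | hiDeg (G n ω) Δ / n < ε1 ∧
        ∀ q ∈ t, |frac (fun v => HasTy (G n ω) v R' q) - π q| ≤ δ1 / (#t + 1)}ᶜ ⊆
        A1 n ∪ ⋃ q ∈ t, A2 n q := by
      intro ω hω
      by_contra hcon
      rw [Set.mem_union, not_or] at hcon
      apply hω
      refine ⟨not_le.mp hcon.1, fun q hq => ?_⟩
      by_contra hc
      apply hcon.2
      rw [Set.mem_iUnion₂]
      exact ⟨q, hq, not_le.mp hc⟩
    calc P n _ ≤ P n (A1 n ∪ ⋃ q ∈ t, A2 n q) := measure_mono hsub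
      _ ≤ P n (A1 n) + P n (⋃ q ∈ t, A2 n q) := measure_union_le _ _
      _ ≤ P n (A1 n) + ∑ q ∈ t, P n (A2 n q) := by
        gcongr
        exact measure_biUnion_finset_le _ _
      _ ≤ ENNReal.ofReal (ε / 4) + ENNReal.ofReal (ε / 4) := add_le_add h1 h2
      _ = ENNReal.ofReal (ε / 4 + ε / 4) := (ENNReal.ofReal_add (by linarith) (by linarith)).symm
      _ ≤ ENNReal.ofReal ε := ENNReal.ofReal_le_ofReal (by linarith)
  · intro n hn ω ⟨h1, h2⟩
    have hn1 : 1 ≤ n := (hN n ((le_max_left _ _).trans hn)).2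
    have hn0 : 0 < n := hn1
    have hn' : (0 : ℝ) < n := by exact_mod_cast hn0
    have hcol : ∀ v, ∀ q ∈ t, HasTy (G n ω) v R' q → ¬ Bad (G n ω) ℓ v ∧ ∀ s ≤ R,
        col (nbG (tr (G n ω) Δ ℓ)) (lb (G n ω) Δ) s v =
        col (nbG (tr q.out.2.1 Δ ℓ)) (lb q.out.2.1 Δ) s q.out.2.2 :=
      fun v q hq hv => col_of_ball (R := R) (by omega) (hta q hq) hv
    constructor
    · have hbt := average_types hn0 (G n ω) R' t π hδ1p.le htm h2
        (fun v => if Bad (G n ω) ℓ v then 1 else 0) (fun _ => 0)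
        (fun v => by split_ifs <;> norm_num) (fun v => by split_ifs <;> norm_num)
        (fun q => by simp) (fun v q hq hv => by rw [if_neg (hcol v q hq hv).1])
      have hnb : nBad (G n ω) ℓ / n ≤ 3 * δ1 := by
        have e : nBad (G n ω) ℓ = ∑ v, if Bad (G n ω) ℓ v then (1:ℝ) else 0 := by
          unfold nBad
          rw [card_filter, Nat.cast_sum]
          exact sum_congr rfl fun v _ => by split_ifs <;> simp
        rw [e]
        simp only [zero_mul, sum_const_zero, sub_zero] at hbt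
        exact (le_abs_self _).trans hbt
      have hd := abs_log_ZF_sub_le (G n ω) Δ ℓ hβ b hC hb
      rw [← sub_div, abs_div, abs_of_pos hn']
      have h3 : (β * (hiDeg (G n ω) Δ + Δ * nBad (G n ω) ℓ) + 4 * C * hiDeg (G n ω) Δ) / n =
          (β + 4 * C) * (hiDeg (G n ω) Δ / n) + β * Δ * (nBad (G n ω) ℓ / n) := by
        field_simp
        ring
      have h4 : (β + 4 * C) * (hiDeg (G n ω) Δ / n) ≤ (β + 4 * C) * ε1 :=
        mul_le_mul_of_nonneg_left h1.le (by positivity)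
      have h5 : β * Δ * (nBad (G n ω) ℓ / n) ≤ β * Δ * (3 * δ1) :=
        mul_le_mul_of_nonneg_left hnb hβΔ
      have h6 : (β + 4 * C) * ε1 ≤ ε / 8 := by
        rw [hε1, mul_div_assoc', div_le_div_iff₀ (by positivity) (by norm_num)]
        nlinarith
      have h7 : β * Δ * (3 * δ1) ≤ ε / 8 := by
        have h8 : δ1 * (32 * (β * Δ + 1)) ≤ ε := by
          rwa [le_div_iff₀ (by positivity)] at hδ1
        nlinarith [mul_nonneg hβΔ hδ1p.le]
      refine (div_le_div_of_nonneg_right hd hn'.le).trans ?_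
      rw [h3]
      linarith
    · intro s hs γ
      have hbt := average_types hn0 (G n ω) R' t π hδ1p.le htm h2
        (fun v => if col (nbG (tr (G n ω) Δ ℓ)) (lb (G n ω) Δ) s v = γ then 1 else 0)
        (fun q => if col (nbG (tr q.out.2.1 Δ ℓ)) (lb q.out.2.1 Δ) s q.out.2.2 = γ
          then (1:ℝ) else 0)
        (fun v => by split_ifs <;> norm_num) (fun v => by split_ifs <;> norm_num)
        (fun q => by split_ifs <;> simp) (fun v q hq hv => by rw [(hcol v q hq hv).2 s hs])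
      have e : freq (nbG (tr (G n ω) Δ ℓ)) (lb (G n ω) Δ) s γ =
          (∑ v, if col (nbG (tr (G n ω) Δ ℓ)) (lb (G n ω) Δ) s v = γ then (1:ℝ) else 0) / n := by
        unfold freq
        rw [card_filter, Nat.cast_sum, Fintype.card_fin]
        congr 1
        exact sum_congr rfl fun v _ => by split_ifs <;> simp
      rw [e]; exact hbt

end

section

variable {Ω Ω' : ℕ → Type} [∀ n, MeasurableSpace (Ω n)] {P : ∀ n, Measure (Ω n)}
  [∀ n, IsProbabilityMeasure (P n)] {G : ∀ n, Ω n → SimpleGraph (Fin n)}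
  [∀ n, MeasurableSpace (Ω' n)] {P' : ∀ n, Measure (Ω' n)}
  [∀ n, IsProbabilityMeasure (P' n)] {G' : ∀ n, Ω' n → SimpleGraph (Fin n)}

/-- Comparison of two sequences with the same local limit. -/
theorem cauchy2 (h : LocallyTreeLike P G) (h' : LocallyTreeLike P' G') (X : RandomRooted)
    (hX : ∀ᵐ ω ∂X.μ, (X.T ω).IsTree) (hloc : HasLocalLimit P G X)
    (hloc' : HasLocalLimit P' G' X) {β : ℝ} (hβ : 0 ≤ β) (b : ℕ → ℝ) {C : ℝ} (hC : 0 ≤ C)
    (hb : ∀ d : ℕ, |b d| ≤ C * (d + 1)) {ε : ℝ} (hε : 0 < ε) :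
    ∃ (N : ℕ) (A : ∀ n, Set (Ω n)) (A' : ∀ n, Set (Ω' n)),
      (∀ n ≥ N, P n (A n)ᶜ ≤ ENNReal.ofReal ε) ∧ (∀ n ≥ N, P' n (A' n)ᶜ ≤ ENNReal.ofReal ε) ∧
      ∀ n ≥ N, ∀ m ≥ N, ∀ ω ∈ A n, ∀ ω' ∈ A' m,
        Real.log (ZF (G n ω) β b) / n ≤ Real.log (ZF (G' m ω') β b) / m + ε := by
  classical
  set ε1 := ε / (8 * (β + 4 * C + 1)) with hε1
  have hε1p : 0 < ε1 := by positivity
  obtain ⟨Δ1, hΔ1⟩ := sparse_small h (show 0 < ε1 * (ε / 4) by positivity)
  obtain ⟨Δ2, hΔ2⟩ := sparse_small h' (show 0 < ε1 * (ε / 4) by positivity)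
  set Δ := max Δ1 Δ2 with hΔdef
  have hΔ := sparse_mono h (le_max_left Δ1 Δ2) hΔ1
  have hΔ' := sparse_mono h' (le_max_right Δ1 Δ2) hΔ2
  obtain ⟨R, ρ, δ, hδ, hcomp⟩ := compare_tr hβ b Δ (show 0 < ε / 4 by linarith)
  set ℓ := 2 * ρ + 2 with hℓ
  set δ1 := min (δ / 6) (ε / (32 * (β * Δ + 1))) with hδ1
  have hβΔ : 0 ≤ β * Δ := mul_nonneg hβ (Nat.cast_nonneg _)
  have hδ1p : 0 < δ1 := lt_min (by linarith) (by positivity)
  obtain ⟨t, hta, htm⟩ := exists_types X hX (R + ℓ + 1) hδ1p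
  obtain ⟨N, A, hA, hN1, hkey⟩ := approx h X hloc hβ b hC hb hε Δ R ℓ hΔ hδ1p
    (min_le_right _ _) t hta htm
  obtain ⟨N', A', hA', hN1', hkey'⟩ := approx h' X hloc' hβ b hC hb hε Δ R ℓ hΔ' hδ1p
    (min_le_right _ _) t hta htm
  refine ⟨max N N', A, A', fun n hn => hA n ((le_max_left _ _).trans hn),
    fun n hn => hA' n ((le_max_right _ _).trans hn), ?_⟩
  intro n hn m hm ω hω ω' hω'
  have hnN : N ≤ n := (le_max_left _ _).trans hn
  have hmN : N' ≤ m := (le_max_right _ _).trans hm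
  obtain ⟨a1, a2⟩ := hkey n hnN ω hω
  obtain ⟨b1, b2⟩ := hkey' m hmN ω' hω'
  have hn0 : 0 < n := by omega
  have hm0 : 0 < m := by omega
  have : Nonempty (Fin n) := ⟨⟨0, hn0⟩⟩
  have : Nonempty (Fin m) := ⟨⟨0, hm0⟩⟩
  have hc := hcomp (Fin n) (Fin m) (G n ω) (G' m ω') (fun s hs γ => by
    have c1 := a2 s hs γ
    have c2 := b2 s hs γ
    have hδ6 : δ1 ≤ δ / 6 := min_le_left _ _
    rw [abs_le] at c1 c2 ⊢
    constructor <;> linarith [c1.1, c1.2, c2.1, c2.2])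
  rw [Fintype.card_fin, Fintype.card_fin] at hc
  have d1 := (abs_le.mp a1).2
  have d2 := (abs_le.mp b1).1
  linarith

/-- Convergence for general fields. -/
theorem exists_pressure (h : LocallyTreeLike P G) (X : RandomRooted)
    (hX : ∀ᵐ ω ∂X.μ, (X.T ω).IsTree) (hloc : HasLocalLimit P G X) {β : ℝ} (hβ : 0 ≤ β)
    (b : ℕ → ℝ) {C : ℝ} (hC : 0 ≤ C) (hb : ∀ d : ℕ, |b d| ≤ C * (d + 1)) :
    ∃ c : ℝ, TendstoInProb P (fun n ω => Real.log (ZF (G n ω) β b) / n) c := by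
  refine exists_limit _ fun ε hε => ?_
  obtain ⟨N, A, A', hA, hA', hc⟩ := cauchy2 h h X hX hloc hloc hβ b hC hb (half_pos hε)
  refine ⟨N, fun n => A n ∩ A' n, fun n hn => ?_, fun n hn m hm ω hω ω' hω' => ?_⟩
  · rw [Set.compl_inter]
    calc P n ((A n)ᶜ ∪ (A' n)ᶜ) ≤ P n (A n)ᶜ + P n (A' n)ᶜ := measure_union_le _ _
      _ ≤ ENNReal.ofReal (ε / 2) + ENNReal.ofReal (ε / 2) := add_le_add (hA n hn) (hA' n hn)
      _ = ENNReal.ofReal ε := by
        rw [← ENNReal.ofReal_add (by linarith) (by linarith)]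
        congr 1
        ring
  · have := hc n hn m hm ω hω.1 ω' hω'.2
    linarith

/-- If the event `A` has probability at least `3 / 4` and `X n` converges to `c` in probability,
some point of `A` has `X n` near `c`. -/
lemma exists_close {X : ∀ n, Ω n → ℝ} {c : ℝ} (hc : TendstoInProb P X c) {N : ℕ}
    {A : ∀ n, Set (Ω n)} (hA : ∀ n ≥ N, P n (A n)ᶜ ≤ ENNReal.ofReal (1 / 4)) {ε : ℝ}
    (hε : 0 < ε) : ∃ n ≥ N, ∃ ω ∈ A n, |X n ω - c| ≤ ε := by
  have h1 : ∀ᶠ n in atTop, P n {ω | ε < |X n ω - c|} ≤ ENNReal.ofReal (1 / 4) :=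
    (hc ε hε).eventually_le_const (by positivity)
  obtain ⟨n, hn1, hn2⟩ := (h1.and (eventually_ge_atTop N)).exists
  refine ⟨n, hn2, ?_⟩
  by_contra hcon
  push Not at hcon
  have hcover : (Set.univ : Set (Ω n)) ⊆ (A n)ᶜ ∪ {ω | ε < |X n ω - c|} := by
    intro ω _
    by_cases hω : ω ∈ A n
    · exact Or.inr (hcon ω hω)
    · exact Or.inl hω
  have h2 : (1 : ENNReal) ≤ ENNReal.ofReal (1 / 2) := by
    calc (1 : ENNReal) = P n Set.univ := measure_univ.symm
      _ ≤ P n ((A n)ᶜ ∪ {ω | ε < |X n ω - c|}) := measure_mono hcover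
      _ ≤ P n (A n)ᶜ + P n {ω | ε < |X n ω - c|} := measure_union_le _ _
      _ ≤ ENNReal.ofReal (1 / 4) + ENNReal.ofReal (1 / 4) := add_le_add (hA n hn2) hn1
      _ = ENNReal.ofReal (1 / 2) := by
        rw [← ENNReal.ofReal_add (by norm_num) (by norm_num)]
        norm_num
  rw [← ENNReal.ofReal_one, ENNReal.ofReal_le_ofReal_iff (by norm_num)] at h2
  norm_num at h2

/-- The limits of two sequences with the same local limit agree. -/
theorem limit_le (h : LocallyTreeLike P G) (h' : LocallyTreeLike P' G') (X : RandomRooted)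
    (hX : ∀ᵐ ω ∂X.μ, (X.T ω).IsTree) (hloc : HasLocalLimit P G X)
    (hloc' : HasLocalLimit P' G' X) {β : ℝ} (hβ : 0 ≤ β) (b : ℕ → ℝ) {C : ℝ} (hC : 0 ≤ C)
    (hb : ∀ d : ℕ, |b d| ≤ C * (d + 1)) {c c' : ℝ}
    (hc : TendstoInProb P (fun n ω => Real.log (ZF (G n ω) β b) / n) c)
    (hc' : TendstoInProb P' (fun n ω => Real.log (ZF (G' n ω) β b) / n) c') : c ≤ c' := by
  refine le_of_forall_pos_le_add fun ε hε => ?_
  obtain ⟨N, A, A', hA, hA', hcmp⟩ := cauchy2 h h' X hX hloc hloc' hβ b hC hb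
    (show 0 < min (ε / 3) (1 / 4) by positivity)
  have hq : ENNReal.ofReal (min (ε / 3) (1 / 4)) ≤ ENNReal.ofReal (1 / 4) :=
    ENNReal.ofReal_le_ofReal (min_le_right _ _)
  obtain ⟨n, hn, ω, hω, h1⟩ := exists_close hc (fun n hn => (hA n hn).trans hq)
    (show 0 < ε / 3 by linarith)
  obtain ⟨m, hm, ω', hω', h2⟩ := exists_close hc' (fun n hn => (hA' n hn).trans hq)
    (show 0 < ε / 3 by linarith)
  have h3 := hcmp n hn m hm ω hω ω' hω'
  have h4 := min_le_left (ε / 3) (1 / 4 : ℝ)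
  rw [abs_le] at h1 h2
  linarith [h1.1, h2.2]

end

/-- The limit depends only on the local limit. -/
theorem limit_determines (X : RandomRooted) (hX : ∀ᵐ ω ∂X.μ, (X.T ω).IsTree) {β : ℝ}
    (hβ : 0 ≤ β) (b : ℕ → ℝ) {C : ℝ} (hb : ∀ d : ℕ, |b d| ≤ C * (d + 1)) :
    ∃ φ : ℝ, ∀ (Ω : ℕ → Type) [∀ n, MeasurableSpace (Ω n)] (P : ∀ n, Measure (Ω n))
      [∀ n, IsProbabilityMeasure (P n)] (G : ∀ n, Ω n → SimpleGraph (Fin n)),
      LocallyTreeLike P G → HasLocalLimit P G X →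
        TendstoInProb P (fun n ω => Real.log (ZF (G n ω) β b) / n) φ := by
  have hC : 0 ≤ C := by
    have h0 := hb 0
    simp only [Nat.cast_zero, zero_add, mul_one] at h0
    exact (abs_nonneg _).trans h0
  by_cases hex : ∃ (Ω : ℕ → Type) (_ : ∀ n, MeasurableSpace (Ω n)) (P : ∀ n, Measure (Ω n))
      (_ : ∀ n, IsProbabilityMeasure (P n)) (G : ∀ n, Ω n → SimpleGraph (Fin n)),
      LocallyTreeLike P G ∧ HasLocalLimit P G X
  · obtain ⟨Ω, iM, P, iP, G, h, hloc⟩ := hex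
    obtain ⟨φ, hφ⟩ := exists_pressure h X hX hloc hβ b hC hb
    refine ⟨φ, ?_⟩
    intro Ω' _ P' _ G' h' hloc'
    obtain ⟨φ', hφ'⟩ := exists_pressure h' X hX hloc' hβ b hC hb
    have e : φ = φ' := le_antisymm
      (limit_le h h' X hX hloc hloc' hβ b hC hb hφ hφ')
      (limit_le h' h X hX hloc' hloc hβ b hC hb hφ' hφ)
    rw [e]
    exact hφ'
  · refine ⟨0, ?_⟩
    intro Ω iM P iP G h hloc
    exact absurd ⟨Ω, iM, P, iP, G, h, hloc⟩ hex

end Pool.Agent.Lib.MP_a763a9_pr.LD
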